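import Pool.Agent.MP_59fd2e_ag.dv.All

/-! Zero-cycles with Galois invariant class on the very general Debarre-Voisin fourfold. -/

namespace Pool.Agent.Results.MP_59fd2e_ag.DebarreVoisin

open Pool.Agent.MP_9207e0_ag.CC Pool.Agent.MP_59fd2e_ag.DV

theorem result (k0 k : Type) [Field k0] [CharZero k0] [Field k] [IsAlgClosed k] [Algebra k0 k]
    (σ : T3 → k) (hσ : AlgebraicIndependent k0 σ) (Z : PP (Fin 6 → Fin 10) k →₀ ℤ)
    (hX : ∀ x ∈ Z.support, x.rep ∈ cone σ)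
    (hinv : ∀ θ : k ≃ₐ[k0] k, (∀ τ, θ (σ τ) = σ τ) → ∃ m : ℤ, m ≠ 0 ∧
      RatEq (dvIdeal σ) k (m • Z.mapDomain (pmap (θ : k →+* k))) (m • Z))
    (hdeg : (Z.sum fun _ n => n) = 0) :
    ∃ n : ℤ, n ≠ 0 ∧ RatEq (dvIdeal σ) k (n • Z) 0 :=
  main2T k0 k σ hσ Z hX hinv hdeg

end Pool.Agent.Results.MP_59fd2e_ag.DebarreVoisin
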